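import Mathlib

set_option autoImplicit false

namespace Pool.Agent.Results.MP_cfde94_co.Counter

/-- The label `|b u - b v|` of the pair `{u, v}`. -/
def edgeLabel {V : Type} (b : V → ℕ) : Sym2 V → ℕ :=
  Sym2.lift ⟨fun u v => Nat.dist (b u) (b v), fun _ _ => Nat.dist_comm _ _⟩

/-- Graceful labelling. -/
def IsBeta {V : Type} (G : SimpleGraph V) (b : V → ℕ) : Prop :=
  Function.Injective b ∧ (∀ v, b v ≤ G.edgeSet.ncard) ∧
    Set.BijOn (edgeLabel b) G.edgeSet (Set.Icc 1 G.edgeSet.ncard)

/-- Near alpha-valuation: `S` is the set of small vertices, its complement the large ones. -/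
def IsNearAlpha {V : Type} (G : SimpleGraph V) (b : V → ℕ) : Prop :=
  IsBeta G b ∧ ∃ S : Set V, ∀ v, (v ∈ S → ∀ u, G.Adj v u → b v < b u) ∧
    (v ∉ S → ∀ u, G.Adj v u → b u < b v)

/-- The crown graph: `K_(5,5)` minus a perfect matching. -/
def G : SimpleGraph (Fin 10) where
  Adj u v := u.1 / 5 ≠ v.1 / 5 ∧ u.1 % 5 ≠ v.1 % 5
  symm := ⟨fun _ _ h => ⟨h.1.symm, h.2.symm⟩⟩
  loopless := ⟨fun _ h => h.1 rfl⟩

instance : DecidableRel G.Adj := fun u v =>
  inferInstanceAs (Decidable (u.1 / 5 ≠ v.1 / 5 ∧ u.1 % 5 ≠ v.1 % 5))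

def L : List (Sym2 (Fin 10)) :=
  [s(0, 6), s(0, 7), s(0, 8), s(0, 9), s(1, 5), s(1, 7), s(1, 8), s(1, 9), s(2, 5), s(2, 6),
   s(2, 8), s(2, 9), s(3, 5), s(3, 6), s(3, 7), s(3, 9), s(4, 5), s(4, 6), s(4, 7), s(4,
   8)]

theorem edges : G.edgeFinset = L.toFinset := by decide +kernel

theorem card20 : G.edgeSet.ncard = 20 := by
  rw [← SimpleGraph.coe_edgeFinset, Set.ncard_coe_finset, edges]
  decide +kernel

def lab : Fin 10 → ℕ := ![0, 1, 3, 6, 5, 11, 20, 2, 12, 19]

theorem beta : IsBeta G lab := by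
  refine ⟨by decide, by rw [card20]; decide, ?_⟩
  rw [card20, ← SimpleGraph.coe_edgeFinset, ← Finset.coe_Icc, edges]
  refine ⟨?_, ?_, ?_⟩
  · intro e he
    have : ∀ e ∈ L.toFinset, edgeLabel lab e ∈ Finset.Icc 1 20 := by decide +kernel
    exact this e he
  · intro e he f hf
    have : ∀ e ∈ L.toFinset, ∀ f ∈ L.toFinset, edgeLabel lab e = edgeLabel lab f → e = f := by
      decide +kernel
    exact this e he f hf
  · intro k hk
    have : ∀ k ∈ Finset.Icc 1 20, ∃ e ∈ L.toFinset, edgeLabel lab e = k := by decide +kernel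
    exact this k hk

theorem conn : G.Connected := by
  have h : ∀ v : Fin 10, G.Reachable 0 v := by
    intro v
    have key : ∀ v : Fin 10, G.Adj 0 v ∨ (∃ w, G.Adj 0 w ∧ G.Adj w v) ∨
        ∃ w z, G.Adj 0 w ∧ G.Adj w z ∧ G.Adj z v := by decide +kernel
    rcases key v with h | ⟨w, h1, h2⟩ | ⟨w, z, h1, h2, h3⟩
    · exact h.reachable
    · exact h1.reachable.trans h2.reachable
    · exact (h1.reachable.trans h2.reachable).trans h3.reachable
  exact ⟨fun u v => (h u).symm.trans (h v)⟩

theorem not_near (b : Fin 10 → ℕ) : ¬ IsNearAlpha G b := by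
  rintro ⟨⟨_, _, hB⟩, S, hS⟩
  rw [card20, ← SimpleGraph.coe_edgeFinset, ← Finset.coe_Icc, edges] at hB
  have hsum : ∑ e ∈ L.toFinset, edgeLabel b e = ∑ k ∈ Finset.Icc 1 20, k :=
    Finset.sum_nbij (edgeLabel b) (fun e he => hB.1 he) hB.2.1 hB.2.2 (fun _ _ => rfl)
  rw [List.sum_toFinset _ (by decide), show ∑ k ∈ Finset.Icc 1 20, k = 210 by decide] at hsum
  simp only [L, List.map_cons, List.map_nil, List.sum_cons, List.sum_nil, edgeLabel,
    Sym2.lift_mk] at hsum
  have flip : ∀ u v, G.Adj u v → (u ∈ S ↔ v ∉ S) := by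
    intro u v h
    constructor
    · intro hu hv
      exact lt_asymm ((hS u).1 hu v h) ((hS v).1 hv u h.symm)
    · intro hv
      by_contra hu
      exact lt_asymm ((hS u).2 hu v h) ((hS v).2 hv u h.symm)
  have same : ∀ u : Fin 10, u.1 < 5 → (u ∈ S ↔ (0 : Fin 10) ∈ S) := by
    intro u hu
    have key : ∀ u : Fin 10, u.1 < 5 → ∃ w, G.Adj u w ∧ G.Adj 0 w := by decide
    obtain ⟨w, h1, h2⟩ := key u hu
    rw [flip u w h1, flip 0 w h2]
  by_cases h0 : (0 : Fin 10) ∈ S
  · have h : ∀ u v : Fin 10, u.1 < 5 → G.Adj u v → Nat.dist (b u) (b v) + b u = b v := by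
      intro u v hu huv
      have := (hS u).1 ((same u hu).2 h0) v huv
      clear * - this
      unfold Nat.dist; omega
    have e06 := h 0 6 (by decide) (by decide)
    have e07 := h 0 7 (by decide) (by decide)
    have e08 := h 0 8 (by decide) (by decide)
    have e09 := h 0 9 (by decide) (by decide)
    have e15 := h 1 5 (by decide) (by decide)
    have e17 := h 1 7 (by decide) (by decide)
    have e18 := h 1 8 (by decide) (by decide)
    have e19 := h 1 9 (by decide) (by decide)
    have e25 := h 2 5 (by decide) (by decide)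
    have e26 := h 2 6 (by decide) (by decide)
    have e28 := h 2 8 (by decide) (by decide)
    have e29 := h 2 9 (by decide) (by decide)
    have e35 := h 3 5 (by decide) (by decide)
    have e36 := h 3 6 (by decide) (by decide)
    have e37 := h 3 7 (by decide) (by decide)
    have e39 := h 3 9 (by decide) (by decide)
    have e45 := h 4 5 (by decide) (by decide)
    have e46 := h 4 6 (by decide) (by decide)
    have e47 := h 4 7 (by decide) (by decide)
    have e48 := h 4 8 (by decide) (by decide)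
    have : 210 + 4 * (b 0 + b 1 + b 2 + b 3 + b 4) = 4 * (b 5 + b 6 + b 7 + b 8 + b 9) := by
      linarith
    clear * - this
    omega
  · have h : ∀ u v : Fin 10, u.1 < 5 → G.Adj u v → Nat.dist (b u) (b v) + b v = b u := by
      intro u v hu huv
      have := (hS u).2 (fun h => h0 ((same u hu).1 h)) v huv
      clear * - this
      unfold Nat.dist; omega
    have e06 := h 0 6 (by decide) (by decide)
    have e07 := h 0 7 (by decide) (by decide)
    have e08 := h 0 8 (by decide) (by decide)
    have e09 := h 0 9 (by decide) (by decide)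
    have e15 := h 1 5 (by decide) (by decide)
    have e17 := h 1 7 (by decide) (by decide)
    have e18 := h 1 8 (by decide) (by decide)
    have e19 := h 1 9 (by decide) (by decide)
    have e25 := h 2 5 (by decide) (by decide)
    have e26 := h 2 6 (by decide) (by decide)
    have e28 := h 2 8 (by decide) (by decide)
    have e29 := h 2 9 (by decide) (by decide)
    have e35 := h 3 5 (by decide) (by decide)
    have e36 := h 3 6 (by decide) (by decide)
    have e37 := h 3 7 (by decide) (by decide)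
    have e39 := h 3 9 (by decide) (by decide)
    have e45 := h 4 5 (by decide) (by decide)
    have e46 := h 4 6 (by decide) (by decide)
    have e47 := h 4 7 (by decide) (by decide)
    have e48 := h 4 8 (by decide) (by decide)
    have : 210 + 4 * (b 5 + b 6 + b 7 + b 8 + b 9) = 4 * (b 0 + b 1 + b 2 + b 3 + b 4) := by
      linarith
    clear * - this
    omega

theorem result : ¬ ∀ (n : ℕ) (G : SimpleGraph (Fin n)), G.Connected → (∀ v, ∃ u, G.Adj v u) →
    G.IsBipartite → (∃ b, IsBeta G b) → ∃ b, IsNearAlpha G b := by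
  intro h
  obtain ⟨b, hb⟩ := h 10 G conn (by decide)
    ⟨SimpleGraph.Coloring.mk ![0, 0, 0, 0, 0, 1, 1, 1, 1, 1] (by decide)⟩ ⟨_, beta⟩
  exact not_near b hb

end Pool.Agent.Results.MP_cfde94_co.Counter
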